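import Mathlib

/-!
# JOINT PROJECT SD: MP_28dd6c_pr is FALSE (full answer, negated form), with q = 2 seats.

Theorem t_XXX : S_XXX goes to Pool/Agent/X<you>/SD/XXX.lean (import this file).
Parts: CNT, MOD (uses S_CNT), ONE, ITR (uses S_ONE), CON (uses S_ITR), ODE, BB, AA; FIN (helper143).
-/

open Finset

namespace Pool.Agent.X143.SD

/-- The school chosen by a student with list `e` when the loads are `ld`: the first listed school
with a free seat. -/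
def pick (q : ℕ) {n d : ℕ} (ld : Fin n → ℕ) (e : Fin d ↪ Fin n) : Option (Fin n) :=
  (List.ofFn e).find? (fun s => decide (ld s < q))

/-- The loads after one more student. -/
def step (q : ℕ) {n d : ℕ} (ld : Fin n → ℕ) (e : Fin d ↪ Fin n) : Fin n → ℕ :=
  match pick q ld e with
  | none => ld
  | some s => Function.update ld s (ld s + 1)

/-- The loads after the students with lists `L 0, L 1, ...`, in this order. -/
def loads (q : ℕ) {n d i : ℕ} (L : Fin i → (Fin d ↪ Fin n)) : Fin n → ℕ :=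
  (List.ofFn L).foldl (step q) (fun _ => 0)

/-- The probability that student `i + 1` is matched. -/
noncomputable def prM (q n d i : ℕ) : ℝ :=
  (∑ L : Fin i → (Fin d ↪ Fin n), ∑ e : Fin d ↪ Fin n,
    if (pick q (loads q L) e).isSome = true then (1 : ℝ) else 0) /
    ((Fintype.card (Fin d ↪ Fin n) : ℝ) ^ i * Fintype.card (Fin d ↪ Fin n))

def c0 {n : ℕ} (ld : Fin n → ℕ) : ℕ := (univ.filter fun s => ld s = 0).card
def c1 {n : ℕ} (ld : Fin n → ℕ) : ℕ := (univ.filter fun s => ld s = 1).card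

/-- Probability that all `d` listed schools are among `c` full ones. -/
noncomputable def phi (n d c : ℕ) : ℝ := (c.descFactorial d : ℝ) / (n.descFactorial d : ℝ)

/-- Transition operator of the pair (number of empty schools, number of schools with one student). -/
noncomputable def Top (n d : ℕ) (G : ℕ → ℕ → ℝ) (a b : ℕ) : ℝ :=
  phi n d (n - a - b) * G a b + (1 - phi n d (n - a - b)) *
    ((a : ℝ) / (a + b) * G (a - 1) (b + 1) + (b : ℝ) / (a + b) * G a (b - 1))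

noncomputable def It (n d : ℕ) (G : ℕ → ℕ → ℝ) : ℕ → ℕ → ℕ → ℝ
  | 0 => G
  | i + 1 => Top n d (It n d G i)

/-- CNT. Fix loads `ld ≤ 2`; `c = n - c0 - c1` schools are full. By the symmetry exchanging two
non-full schools `s, s'` in the list (`Equiv.swap s s'` composed with `e`), the number of lists `e`
with `pick = some s` is the same for all non-full `s`; the lists with `pick = none` are the
embeddings into the set of full schools: `c.descFactorial d` of them. Total `n.descFactorial d`. -/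
def S_CNT : Prop := ∀ (n d : ℕ), 1 ≤ d → d ≤ n → ∀ (ld : Fin n → ℕ), (∀ s, ld s ≤ 2) →
  ∀ G : ℕ → ℕ → ℝ, ∑ e : Fin d ↪ Fin n, G (c0 (step 2 ld e)) (c1 (step 2 ld e)) =
    (Fintype.card (Fin d ↪ Fin n) : ℝ) * Top n d G (c0 ld) (c1 ld)

/-- MOD (uses `S_CNT`). Induction: average over `L : Fin i → _` of `G (c0 (loads L)) (c1 (loads L))`
is `It n d G i n 0` (split off the last list: `Fin.snoc`, `List.ofFn_succ'`, `foldl_concat`; first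
prove it for all `G`, then use it with `Top n d G`, with `It n d (Top n d G) i = Top n d (It n d G i)`),
loads stay `≤ 2`; finally the average over `e` of the indicator of `isSome` is
`1 - phi n d (n - c0 - c1)` (the number of `e` with `pick = none` is `c.descFactorial d`). -/
def S_MOD : Prop := ∀ (n d i : ℕ), 1 ≤ d → d ≤ n →
  prM 2 n d i = It n d (fun a b => 1 - phi n d (n - a - b)) i n 0

/-- `1 + x + ... + x^(d-1)`. -/
noncomputable def PP (d : ℕ) (x : ℝ) : ℝ := ∑ j ∈ range d, x ^ j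

/-- ONE. Write `A = a/n, B = b/n, c/n = 1 - A - B`, `m = 1 - phi`. With `X' = (A', B')` the next
state, `X' - X = (-1/n, 1/n)` w.p. `m a/(a+b)`, `(0, -1/n)` w.p. `m b/(a+b)`, else `0`. So
`E |X' - x'|^2 = |X - x|^2 + 2 <X - x, E(X' - X) - (x' - x)> + E|X' - X - (x' - x)|^2`,
`E(X' - X) = (1/n) (-(m/(A+B)) A, (m/(A+B)) (A - B))` and `|m/(A+B) - PP d (1-A-B)| ≤ C/n` because
`phi = ∏_{j<d} (c-j)/(n-j)` and `c/n - (c-j)/(n-j) = j (1 - c/n)/(n-j)`; `x ↦ (-α P, (α-β) P)` is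
Lipschitz on `[0,1]^2`. `2 |X-x| C/n^... ≤` use `2 r s ≤ (r^2 + s^2)`, e.g. `2 |X-x| K/n^2 ≤
|X-x|^2/n + K^2/n^3`. -/
def S_ONE : Prop := ∀ (d : ℕ) (K : ℝ), 1 ≤ d → 0 ≤ K → ∃ C : ℝ, 0 ≤ C ∧ ∀ n : ℕ, 2 * d ≤ n →
  ∀ a b : ℕ, a + b ≤ n → ∀ α β α' β' : ℝ, 0 ≤ α → 0 ≤ β → α + β ≤ 1 →
  |α' - (α - α * PP d (1 - α - β) / n)| ≤ K / (n : ℝ) ^ 2 →
  |β' - (β + (α - β) * PP d (1 - α - β) / n)| ≤ K / (n : ℝ) ^ 2 →
  Top n d (fun a b => ((a : ℝ) / n - α') ^ 2 + ((b : ℝ) / n - β') ^ 2) a b ≤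
    (1 + C / n) * (((a : ℝ) / n - α) ^ 2 + ((b : ℝ) / n - β) ^ 2) + C / (n : ℝ) ^ 2

/-- The deterministic sequences: they follow the fluid equation up to `K / n^2` per step. -/
def Seq (d : ℕ) (K : ℝ) (n : ℕ) (α β : ℕ → ℝ) : Prop :=
  α 0 = 1 ∧ β 0 = 0 ∧ (∀ i ≤ 2 * n, 0 ≤ α i ∧ 0 ≤ β i ∧ α i + β i ≤ 1) ∧
  ∀ i < 2 * n, |α (i + 1) - (α i - α i * PP d (1 - α i - β i) / n)| ≤ K / (n : ℝ) ^ 2 ∧
    |β (i + 1) - (β i + (α i - β i) * PP d (1 - α i - β i) / n)| ≤ K / (n : ℝ) ^ 2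

/-- ITR (uses `S_ONE`). `Top` is linear, positive and `Top 1 = 1` on `a + b ≤ n` and maps this region
to itself; `It n d G (i+1) = It n d (Top n d G) i`. So with `D_i = It n d Q_i i n 0`,
`Q_i a b = (a/n - α i)^2 + (b/n - β i)^2`: `D_{i+1} ≤ (1 + C/n) D_i + C/n^2`, `D_0 = 0`, hence
`D_i ≤ (C/n^2) i (1 + C/n)^i ≤ 2 C exp (2 C) / n` for `i ≤ 2 n`. -/
def S_ITR : Prop := ∀ (d : ℕ) (K : ℝ), 1 ≤ d → 0 ≤ K → ∃ C : ℝ, 0 ≤ C ∧ ∀ n : ℕ, 2 * d ≤ n →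
  ∀ α β : ℕ → ℝ, Seq d K n α β → ∀ i ≤ 2 * n,
  It n d (fun a b => ((a : ℝ) / n - α i) ^ 2 + ((b : ℝ) / n - β i) ^ 2) i n 0 ≤ C / n

/-- CON (uses `S_ITR`). For `a + b ≤ n`:
`|phi n d (n-a-b) - (1 - α - β)^d| ≤ C (|a/n - α| + |b/n - β|) + C/n` and
`|x| ≤ (√n x^2 + 1/√n)/2`; then apply the positive linear functional `G ↦ It n d G i n 0`
(value `1` at the constant `1`). -/
def S_CON : Prop := ∀ (d : ℕ) (K : ℝ), 1 ≤ d → 0 ≤ K → ∃ C : ℝ, 0 ≤ C ∧ ∀ n : ℕ, 2 * d ≤ n →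
  ∀ α β : ℕ → ℝ, Seq d K n α β → ∀ i ≤ 2 * n,
  |It n d (fun a b => 1 - phi n d (n - a - b)) i n 0 - (1 - (1 - α i - β i) ^ d)| ≤ C / Real.sqrt n

/-- `c(u) = P(Poisson(u) ≥ 2)`. -/
noncomputable def cc (u : ℝ) : ℝ := 1 - (1 + u) * Real.exp (-u)

/-- `T_d(u) = ∫_0^u ds / (1 + c + ... + c^(d-1))`. -/
noncomputable def TT (d : ℕ) (u : ℝ) : ℝ := ∫ s in (0 : ℝ)..u, 1 / PP d (cc s)

/-- ODE. `TT d` has derivative `1/PP d (cc u) ∈ [1/d, 1]` on `[0, ∞)`, so it has an inverse `u` on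
`[0, ∞)` with derivative `PP d (cc (u t)) ∈ [1, d]` (one can also solve on all of `ℝ` after replacing
`cc s` by `cc (max s 0)`), which is Lipschitz; `α = exp (-u)`, `β = u exp (-u)` satisfy
`1 - α - β = cc u`, `α' = -α PP`, `β' = (α - β) PP`, and the local error is `≤ K/n^2` by Taylor
(the derivatives are Lipschitz in `t` on `[0,2]`: mean value theorem on `[i/n, (i+1)/n]`). -/
def S_ODE : Prop := ∀ d : ℕ, 1 ≤ d → ∃ u : ℝ → ℝ, ContinuousOn u (Set.Ici 0) ∧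
  (∀ t, 0 ≤ t → 0 ≤ u t ∧ TT d (u t) = t) ∧ ∃ K : ℝ, 0 ≤ K ∧ ∀ n : ℕ, 1 ≤ n →
  Seq d K n (fun i => Real.exp (-u ((i : ℝ) / n)))
    (fun i => u ((i : ℝ) / n) * Real.exp (-u ((i : ℝ) / n)))

/-- BB, with `d = 1000`. Let `B = 1 - cc = (1+s) exp(-s)`, `cc' = s exp(-s)`, `V(u) = (2+u) exp(-u)`, so
`∫_0^u B = 2 - V(u)` and `TT d u = ∫_0^u B/(1 - cc^d) = 2 - V(u) + U(u)`,
`U(u) = ∫_0^u cc^d B/(1 - cc^d)`. `TT d` is strictly increasing, so it is enough to show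
`U(h) ≥ V(h)` for the `h` with `cc h ^ d = 1/2` (if `(cc u)^d ≥ 1/2` then `u ≥ h`; get strictness from a
strict inequality `U(h) > V(h)`). `h ≤ 12` as `(1+12) exp(-12) < 1 - 2^(-1/1000)`. Since
`B/cc' = (1+s)/s ≥ (1+h)/h`, `U(h) ≥ ((1+h)/h) ∫_0^h cc^d cc'/(1-cc^d) = ((1+h)/h) ∫_0^C x^d/(1-x^d) dx`
with `C = 2^(-1/d)`, while `V(h) h/(1+h) = (1 - 1/(1+h)^2) (1 - C)`, `1 - C ≤ log 2/d`, and
`∫_0^C x^d/(1-x^d) dx ≥ (1/d) (log 2 - 2/d)` (write `x^d = x^(d-1) - x^(d-1) (1-x)`: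
`∫_0^C x^(d-1)/(1-x^d) = log 2/d`, and `∫_0^C x^(d-1)(1-x)/(1-x^d) ≤ 2 ∫_0^1 x^(d-1)(1-x) = 2/(d(d+1))`).
So it suffices that `log 2 - 2/1000 > (1 - 1/169) log 2`. -/
def S_BB : Prop := ∃ d : ℕ, 1 ≤ d ∧ ∀ u : ℝ, 0 ≤ u → TT d u = 2 → (cc u) ^ d < 1 / 2

/-- AA. Notation of BB. Given `ε` (w.l.o.g. `< 1/4`), `ρ = 1/2 - ε`; suppose `(cc u)^l ≤ ρ`, `TT l u = 2`,
i.e. `U(u) = V(u)`. `V(u) ≥ B(u) = 1 - cc u ≥ 1 - ρ^(1/l) ≥ (-log ρ)/l - (log ρ)^2/(2 l^2)`. For every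
`k > 0`: `U(u) ≤ ∫_0^k cc^l/(1-cc^l) + (1+1/k) ∫_0^{cc u} x^(l-1)/(1-x^l) dx ≤ k cc(k)^l/(1-cc(k)^l) +
(1+1/k) (-log(1-ρ))/l` (the last integral is `-log(1 - (cc u)^l)/l`). As `-log(1-ρ) < -log ρ`, choose
`k` large and then `l` large: contradiction. -/
def S_AA : Prop := ∀ ε : ℝ, 0 < ε → ∃ L : ℕ, ∀ l : ℕ, L ≤ l → ∀ u : ℝ, 0 ≤ u → TT l u = 2 →
  1 / 2 - ε < (cc u) ^ l

end Pool.Agent.X143.SD
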