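import Pool.Agent.X143.SD.Stm

open Finset Filter Topology

namespace Pool.Agent.X143.SD

theorem lim_prM (hMOD : S_MOD) (hCON : S_CON) {d : ℕ} (hd : 1 ≤ d) {u : ℝ → ℝ}
    (hu : ContinuousOn u (Set.Ici 0)) {K : ℝ} (hK : 0 ≤ K)
    (hS : ∀ n : ℕ, 1 ≤ n → Seq d K n (fun i => Real.exp (-u ((i : ℝ) / n)))
      (fun i => u ((i : ℝ) / n) * Real.exp (-u ((i : ℝ) / n)))) :
    Tendsto (fun n : ℕ => prM 2 n d (2 * n - 1)) atTop (𝓝 (1 - (cc (u 2)) ^ d)) := by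
  obtain ⟨C, hC0, hC⟩ := hCON d K hd hK
  -- the times
  have ht : Tendsto (fun n : ℕ => (((2 * n - 1 : ℕ) : ℝ) / n)) atTop (𝓝 2) := by
    have h1 : Tendsto (fun n : ℕ => (2 : ℝ) - 1 / (n : ℝ)) atTop (𝓝 (2 - 0)) :=
      tendsto_const_nhds.sub tendsto_one_div_atTop_nhds_zero_nat
    rw [sub_zero] at h1
    refine h1.congr' ?_
    filter_upwards [eventually_ge_atTop 1] with n hn
    have hn0 : (n : ℝ) ≠ 0 := by positivity
    rw [Nat.cast_sub (by omega)]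
    push_cast
    field_simp
  have htw : Tendsto (fun n : ℕ => (((2 * n - 1 : ℕ) : ℝ) / n)) atTop (𝓝[Set.Ici 0] 2) := by
    refine tendsto_nhdsWithin_iff.2 ⟨ht, Eventually.of_forall fun n => ?_⟩
    exact Set.mem_Ici.2 (by positivity)
  have hu2 : Tendsto (fun n : ℕ => u (((2 * n - 1 : ℕ) : ℝ) / n)) atTop (𝓝 (u 2)) :=
    (hu 2 (Set.mem_Ici.2 (by norm_num))).tendsto.comp htw
  have hcc : Continuous cc := by
    unfold cc
    fun_prop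
  have hF : Tendsto (fun n : ℕ => 1 - (cc (u (((2 * n - 1 : ℕ) : ℝ) / n))) ^ d) atTop
      (𝓝 (1 - (cc (u 2)) ^ d)) :=
    tendsto_const_nhds.sub (((hcc.tendsto (u 2)).comp hu2).pow d)
  have hE : Tendsto (fun n : ℕ => C / Real.sqrt n) atTop (𝓝 0) := by
    refine Tendsto.div_atTop tendsto_const_nhds ?_
    exact Real.tendsto_sqrt_atTop.comp tendsto_natCast_atTop_atTop
  have hD : Tendsto (fun n : ℕ => prM 2 n d (2 * n - 1) -
      (1 - (cc (u (((2 * n - 1 : ℕ) : ℝ) / n))) ^ d)) atTop (𝓝 0) := by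
    refine squeeze_zero_norm' ?_ hE
    filter_upwards [eventually_ge_atTop (2 * d)] with n hn
    have hn1 : 1 ≤ n := by omega
    rw [hMOD n d (2 * n - 1) hd (by omega), Real.norm_eq_abs]
    have h := hC n hn _ _ (hS n hn1) (2 * n - 1) (by omega)
    have e : cc (u (((2 * n - 1 : ℕ) : ℝ) / n)) =
        1 - Real.exp (-u (((2 * n - 1 : ℕ) : ℝ) / n)) -
          u (((2 * n - 1 : ℕ) : ℝ) / n) * Real.exp (-u (((2 * n - 1 : ℕ) : ℝ) / n)) := by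
      unfold cc
      ring
    rw [e]
    exact h
  have := hD.add hF
  simpa using this

/-- FIN. -/
theorem t_FIN (hMOD : S_MOD) (hCON : S_CON) (hODE : S_ODE) (hBB : S_BB) (hAA : S_AA) :
    ∃ d : ℕ, 1 ≤ d ∧ ∃ L ≥ d, ∀ ℓ ≥ L, ∃ N ≥ ℓ, ∀ n ≥ N,
      prM 2 n ℓ (2 * n - 1) < prM 2 n d (2 * n - 1) := by
  obtain ⟨d, hd, hB⟩ := hBB
  obtain ⟨u, hu, hu2, K, hK, hS⟩ := hODE d hd
  obtain ⟨hu0, huT⟩ := hu2 2 (by norm_num)
  have hg := hB (u 2) hu0 huT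
  obtain ⟨L, hL⟩ := hAA (1 / 2 - (cc (u 2)) ^ d) (by linarith)
  refine ⟨d, hd, max L d, le_max_right _ _, fun ℓ hℓ => ?_⟩
  have hℓ1 : 1 ≤ ℓ := le_trans hd (le_trans (le_max_right _ _) hℓ)
  have hℓL : L ≤ ℓ := le_trans (le_max_left _ _) hℓ
  obtain ⟨v, hv, hv2, K', hK', hS'⟩ := hODE ℓ hℓ1
  obtain ⟨hv0, hvT⟩ := hv2 2 (by norm_num)
  have hg' := hL ℓ hℓL (v 2) hv0 hvT
  have l1 := lim_prM hMOD hCON hd hu hK hS
  have l2 := lim_prM hMOD hCON hℓ1 hv hK' hS'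
  have h := l2.eventually_lt l1 (by linarith)
  obtain ⟨N, hN⟩ := eventually_atTop.1 h
  exact ⟨max N ℓ, le_max_right _ _, fun n hn => hN n (le_trans (le_max_left _ _) hn)⟩

end Pool.Agent.X143.SD
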